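import Pool.Agent.helper55.NM.Spec2

set_option autoImplicit false

namespace Pool.Agent.helper20.NM

open Pool.Agent.NM Pool.Agent.helper72.UP Finset Nat

open Classical in
theorem ASM_one (hPC : PC_stmt) (hBZ : BZ_stmt) (ε : ℝ) (hε : 0 < ε) (p0 : ℕ) :
    ∃ n0 : ℕ, ∀ (n k : ℕ) (x : Fin n → ℝ), n0 ≤ n →
      (1 / 3 + ε) * n ≤ k → (k : ℝ) ≤ (1 / 2 - ε) * n → (∀ i, x i ≠ 0) →
      (univ.filter (fun i => 0 < x i)).card < p0 → zer x k ≤ 2 * (n - 2).choose (k - 1) := by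
  obtain ⟨nC, hC⟩ := hPC ε hε
  have hB : ∀ p : ℕ, ∃ n0 : ℕ, 3 ≤ p → ∀ (n k : ℕ) (x : Fin n → ℝ), n0 ≤ n →
      (1 / 3 + ε) * n ≤ k → (k : ℝ) ≤ (1 / 2 - ε) * n → (∀ i, x i ≠ 0) →
      (univ.filter (fun i => 0 < x i)).card = p → zer x k ≤ 2 * (n - 2).choose (k - 1) := by
    intro p
    by_cases h : 3 ≤ p
    · obtain ⟨n0, hn0⟩ := hBZ ε p hε h
      exact ⟨n0, fun _ => hn0⟩
    · exact ⟨0, fun h' => absurd h' h⟩
  choose nB hnB using hB
  refine ⟨max nC ((range p0).sup nB), ?_⟩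
  intro n k x hn h1 h2 hx hp
  have hnC : nC ≤ n := le_trans (le_max_left _ _) hn
  have hnB' : (range p0).sup nB ≤ n := le_trans (le_max_right _ _) hn
  by_cases h3 : (univ.filter (fun i => 0 < x i)).card ≤ 2
  · refine hC n k x hnC ?_ h2 hx h3
    have h4 : 0 ≤ ε * n := mul_nonneg hε.le (Nat.cast_nonneg n)
    linarith
  · have h5 : nB (univ.filter (fun i => 0 < x i)).card ≤ n :=
      le_trans (Finset.le_sup (f := nB) (mem_range.2 hp)) hnB'
    exact hnB _ (by omega) n k x h5 h1 h2 hx rfl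

open Classical in
theorem ASM (hPA : PA_stmt) (hPC : PC_stmt) (hBZ : BZ_stmt) (hSYM : SYM_stmt) : ASM_stmt := by
  intro ε hε
  obtain ⟨p0, nA, hA⟩ := hPA ε hε
  obtain ⟨nB, hB⟩ := ASM_one hPC hBZ ε hε p0
  refine ⟨max nA nB, ?_⟩
  intro n k x hn h1 h2 hx
  have hnA : nA ≤ n := le_trans (le_max_left _ _) hn
  have hnB : nB ≤ n := le_trans (le_max_right _ _) hn
  by_cases ha : (univ.filter (fun i => 0 < x i)).card < p0
  · exact hB n k x hnB h1 h2 hx ha
  by_cases hb : (univ.filter (fun i => x i < 0)).card < p0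
  · rw [← hSYM n k x]
    refine hB n k (fun i => - x i) hnB h1 h2 (fun i => neg_ne_zero.2 (hx i)) ?_
    have h3 : (univ.filter (fun i => 0 < - x i)) = univ.filter (fun i => x i < 0) := by
      ext i
      simp only [mem_filter, mem_univ, true_and, Left.neg_pos_iff]
    rw [h3]
    exact hb
  · refine hA n k x hnA ?_ h2 hx (not_lt.1 ha) (not_lt.1 hb)
    have h4 : 0 ≤ ε * n := mul_nonneg hε.le (Nat.cast_nonneg n)
    linarith

end Pool.Agent.helper20.NM
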